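import Pool.Agent.Helper98.NB.Param

/-!
# The parameters for programs which inspect bits

The characteristic `c` depends only on `δ`.
-/

set_option autoImplicit false

namespace Pool.Agent.Helper98.NC

open Pool.Agent.Helper98.NB (parameters_gen)

/-- The last condition: the characters are small. -/
theorem small_char {c Q e m d n : ℕ} {L A : ℝ} (hc : 2 ≤ c) (hn : 1 ≤ n) (hL : L = Real.log n) (hL1 : 1 ≤ L)
    (hQe : Q ^ e ≤ n ^ 6) (hQ : 1 ≤ Q) (hmA : (m : ℝ) ≤ A * L) (hd : 8 * (c : ℝ) ^ 2 * (8 + 12 * A) * L ^ 2 ≤ d) :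
    ((4 * Q ^ e : ℕ) : ℝ) * (((Q : ℕ) : ℝ) ^ (2 * m * e) * (1 - 1 / (8 * (c : ℝ) ^ 2)) ^ d) ≤ 1 := by
  have hc0 : (0 : ℝ) < c := by exact_mod_cast (by omega : 0 < c)
  have hn0 : (0 : ℝ) < n := by exact_mod_cast hn
  have hc2 : (0 : ℝ) < 8 * (c : ℝ) ^ 2 := by positivity
  have hc4 : (1 : ℝ) / (8 * (c : ℝ) ^ 2) ≤ 1 := by
    rw [div_le_one hc2]
    have : (2 : ℝ) ≤ c := by exact_mod_cast hc
    nlinarith
  have hexp : Real.exp L = n := by rw [hL, Real.exp_log hn0]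
  have hQe' : ((Q ^ e : ℕ) : ℝ) ≤ Real.exp (6 * L) := by
    have h1 : ((Q ^ e : ℕ) : ℝ) ≤ ((n ^ 6 : ℕ) : ℝ) := Nat.cast_le.2 hQe
    refine h1.trans (le_of_eq ?_)
    rw [show 6 * L = ((6 : ℕ) : ℝ) * L by norm_num, Real.exp_nat_mul, hexp]
    push_cast
    rfl
  have h4 : (4 : ℝ) ≤ Real.exp (2 * L) := by
    have h1 := Real.add_one_le_exp L
    have h2 : Real.exp (2 * L) = Real.exp L * Real.exp L := by rw [← Real.exp_add]; ring_nf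
    rw [h2]
    nlinarith
  have hA1 : ((4 * Q ^ e : ℕ) : ℝ) ≤ Real.exp (8 * L) := by
    have h1 : ((4 * Q ^ e : ℕ) : ℝ) = 4 * ((Q ^ e : ℕ) : ℝ) := by push_cast; ring
    rw [h1]
    calc 4 * ((Q ^ e : ℕ) : ℝ) ≤ Real.exp (2 * L) * Real.exp (6 * L) :=
          mul_le_mul h4 hQe' (Nat.cast_nonneg _) (Real.exp_nonneg _)
      _ = Real.exp (8 * L) := by rw [← Real.exp_add]; ring_nf
  have hA2 : ((Q : ℕ) : ℝ) ^ (2 * m * e) ≤ Real.exp (12 * A * L ^ 2) := by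
    calc ((Q : ℕ) : ℝ) ^ (2 * m * e) = ((Q ^ e : ℕ) : ℝ) ^ (2 * m) := by
          rw [Nat.cast_pow, ← pow_mul]
          congr 1
          ring
      _ ≤ Real.exp (6 * L) ^ (2 * m) := pow_le_pow_left₀ (Nat.cast_nonneg _) hQe' _
      _ = Real.exp (((2 * m : ℕ) : ℝ) * (6 * L)) := by rw [Real.exp_nat_mul]
      _ ≤ Real.exp (12 * A * L ^ 2) := by
          apply Real.exp_le_exp.2
          push_cast
          have h1 : (m : ℝ) * L ≤ A * L * L := mul_le_mul_of_nonneg_right hmA (by linarith)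
          calc 2 * (m : ℝ) * (6 * L) = 12 * (m * L) := by ring
            _ ≤ 12 * (A * L * L) := by linarith
            _ = 12 * A * L ^ 2 := by ring
  have hA3 : (1 - 1 / (8 * (c : ℝ) ^ 2)) ^ d ≤ Real.exp (-((8 + 12 * A) * L ^ 2)) := by
    have h1 : 1 - 1 / (8 * (c : ℝ) ^ 2) ≤ Real.exp (-(1 / (8 * (c : ℝ) ^ 2))) := by
      have := Real.add_one_le_exp (-(1 / (8 * (c : ℝ) ^ 2)))
      linarith
    calc (1 - 1 / (8 * (c : ℝ) ^ 2)) ^ d ≤ Real.exp (-(1 / (8 * (c : ℝ) ^ 2))) ^ d :=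
          pow_le_pow_left₀ (by linarith) h1 d
      _ = Real.exp ((d : ℝ) * (-(1 / (8 * (c : ℝ) ^ 2)))) := by rw [Real.exp_nat_mul]
      _ ≤ Real.exp (-((8 + 12 * A) * L ^ 2)) := by
          apply Real.exp_le_exp.2
          have h2 : (8 + 12 * A) * L ^ 2 ≤ (d : ℝ) * (1 / (8 * (c : ℝ) ^ 2)) := by
            rw [mul_one_div, le_div_iff₀ hc2]
            refine le_trans (le_of_eq ?_) hd
            ring
          linarith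
  have hk0 : (0 : ℝ) ≤ (1 - 1 / (8 * (c : ℝ) ^ 2)) ^ d := pow_nonneg (by linarith) d
  calc ((4 * Q ^ e : ℕ) : ℝ) * (((Q : ℕ) : ℝ) ^ (2 * m * e) * (1 - 1 / (8 * (c : ℝ) ^ 2)) ^ d)
      ≤ Real.exp (8 * L) * (Real.exp (12 * A * L ^ 2) * Real.exp (-((8 + 12 * A) * L ^ 2))) :=
        mul_le_mul hA1 (mul_le_mul hA2 hA3 hk0 (Real.exp_nonneg _)) (mul_nonneg (by positivity) hk0)
          (Real.exp_nonneg _)
    _ = Real.exp (8 * L - 8 * L ^ 2) := by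
        rw [← Real.exp_add, ← Real.exp_add]
        congr 1
        ring
    _ ≤ 1 := by
        rw [Real.exp_le_one_iff]
        nlinarith

/-- B16c': the parameters: the characteristic `c` depends only on `δ`. -/
theorem parameters (δ : ℝ) (hδ : 0 < δ) (_hδ1 : δ ≤ 1) : ∃ c : ℕ, c.Prime ∧ 8 ≤ δ * c ∧ ∃ n0 : ℕ, ∀ n ≥ n0,
    ∃ m s e d : ℕ, 1 ≤ m ∧ 1 ≤ s ∧ 1 ≤ e ∧ 2 * Real.log n / m ≤ δ / 2 ∧
      (8 * (2 * m * e : ℕ) : ℝ) ≤ δ * (c ^ s : ℕ) ∧ (8 * d : ℝ) ≤ δ * ((c ^ s : ℕ) : ℝ) ^ 2 ∧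
      (6 * (m * (c ^ s : ℕ)) ^ 2 : ℝ) ≤ Real.sqrt n ∧ n ^ 5 ≤ (c ^ s) ^ e ∧ (c ^ s) ^ e ≤ n ^ 6 ∧
      n * (n + 1) * m * (2 * m) ≤ (c ^ s) ^ e ∧
      ((n * (n + 1) * m) * (c ^ s) ^ 2) ^ 2 ≤ (c ^ s) ^ e * (c ^ s) ^ 2 ∧
      (c ^ s) ^ e * (c ^ s) ^ 2 ≤ n ^ 7 ∧ (c ^ s) ^ 2 ≤ (c ^ s) ^ e ∧ 2 * m * e ≤ c ^ s ∧
      (m : ℝ) ≤ Real.log n ^ 2 ∧ (c ^ s) ^ 2 ≤ n ∧
      ((4 * (c ^ s) ^ e : ℕ) : ℝ) * (((c ^ s : ℕ) : ℝ) ^ (2 * m * e) * (1 - 1 / (8 * (c : ℝ) ^ 2)) ^ d) ≤ 1 ∧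
      10 / Real.sqrt n ≤ δ := by
  obtain ⟨c, hc1, hc⟩ := Nat.exists_infinite_primes ⌈8 / δ⌉₊
  refine ⟨c, hc, ?_, ?_⟩
  · have h1 : 8 / δ ≤ (c : ℝ) := (Nat.le_ceil _).trans (by exact_mod_cast hc1)
    rw [div_le_iff₀ hδ] at h1
    linarith
  set A : ℝ := 4 / (δ / 4) + 1 with hA
  have hA0 : 0 < A := by positivity
  set R : ℝ := 1 + 8 / δ * (8 * (c : ℝ) ^ 2 * (8 + 12 * A) + 1) with hR
  have hR1 : 1 ≤ R := by
    have : 0 ≤ 8 / δ * (8 * (c : ℝ) ^ 2 * (8 + 12 * A) + 1) := by positivity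
    linarith
  obtain ⟨n0, hn0⟩ := parameters_gen c hc.two_le (δ / 4) (by positivity) R
  refine ⟨max n0 (max 2 ⌈(10 / δ) ^ 2⌉₊), fun n hn => ?_⟩
  obtain ⟨m, s, e, h1, h2, h3, h4, h5, h6, h7, h8, h9, h10, h11, h12, h13, h14, h15, h16, h17, h18⟩ :=
    hn0 n (le_trans (le_max_left _ _) hn)
  have hn2 : 2 ≤ n := le_trans (le_trans (le_max_left _ _) (le_max_right _ _)) hn
  have hn10 : (10 / δ) ^ 2 ≤ (n : ℝ) :=
    (Nat.le_ceil _).trans (by exact_mod_cast le_trans (le_trans (le_max_right _ _) (le_max_right _ _)) hn)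
  set L : ℝ := Real.log n with hL
  have hQ1 : 1 ≤ c ^ s := Nat.one_le_pow _ _ hc.pos
  generalize hQ : c ^ s = Q at *
  have hQ0 : (0 : ℝ) ≤ (Q : ℝ) := Nat.cast_nonneg _
  have hd1 : (⌊δ * (Q : ℝ) ^ 2 / 8⌋₊ : ℝ) ≤ δ * (Q : ℝ) ^ 2 / 8 := Nat.floor_le (by positivity)
  have hd2 : δ * (Q : ℝ) ^ 2 / 8 < (⌊δ * (Q : ℝ) ^ 2 / 8⌋₊ : ℝ) + 1 := Nat.lt_floor_add_one _
  -- the square of `m * Q`
  have hn1' : (1 : ℝ) ≤ n := by exact_mod_cast (by omega : 1 ≤ n)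
  have hmn : 2 * m ^ 2 ≤ n := by
    have e1 : Real.sqrt n ≤ n := by
      rw [Real.sqrt_le_left (by linarith)]
      nlinarith
    have e2 : (6 * ((m : ℝ) * Q) ^ 2 : ℝ) ≤ n := le_trans h6 e1
    have e3 : (1 : ℝ) ≤ (Q : ℝ) ^ 2 := one_le_pow₀ (by exact_mod_cast hQ1)
    have e4 : (m : ℝ) ^ 2 ≤ ((m : ℝ) * Q) ^ 2 := by
      rw [mul_pow]
      exact le_mul_of_one_le_right (by positivity) e3
    have e5 : ((2 * m ^ 2 : ℕ) : ℝ) ≤ n := by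
      push_cast
      linarith [sq_nonneg ((m : ℝ) * Q)]
    exact_mod_cast e5
  refine ⟨m, s, e, ⌊δ * (Q : ℝ) ^ 2 / 8⌋₊, h1, h2, h3, ?_, ?_, ?_, ?_, ?_, ?_, ?_, ?_, ?_, ?_, ?_, h14, ?_, ?_, ?_⟩
  · linarith
  · rw [hQ]
    have e1 : (2 * (e * (2 * m) : ℕ) : ℝ) ≤ δ / 4 * (Q : ℕ) := h5
    push_cast at e1 ⊢
    linarith
  · rw [hQ]
    linarith
  · rw [hQ]
    exact h6
  · rw [hQ]
    exact h7
  · rw [hQ]
    exact h8
  · rw [hQ]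
    calc n * (n + 1) * m * (2 * m) = n * (n + 1) * (2 * m ^ 2) := by ring
      _ ≤ n * (n + 1) * n := Nat.mul_le_mul_left _ hmn
      _ ≤ n * (2 * n) * n := by
        apply Nat.mul_le_mul_right
        apply Nat.mul_le_mul_left
        omega
      _ = 2 * n ^ 3 := by ring
      _ ≤ n * n ^ 3 := Nat.mul_le_mul_right _ hn2
      _ = n ^ 4 := by ring
      _ ≤ n ^ 5 := Nat.pow_le_pow_right (by omega) (by norm_num)
      _ ≤ Q ^ e := h7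
  · rw [hQ]
    exact h10
  · rw [hQ]
    exact h11
  · rw [hQ]
    exact h12
  · rw [hQ]
    exact h13
  · rw [hQ]
    exact h15
  · rw [hQ]
    refine small_char hc.two_le (by omega) hL h16 h8 hQ1 h17 ?_
    have e1 : R * L ^ 2 ≤ (Q : ℝ) := h18
    have e2 : 1 ≤ L ^ 2 := one_le_pow₀ h16
    have e3 : R * L ^ 2 * 1 ≤ (Q : ℝ) * Q := by
      refine mul_le_mul e1 ?_ zero_le_one hQ0
      exact_mod_cast hQ1
    have e4 : (8 * (c : ℝ) ^ 2 * (8 + 12 * A) + 1) * L ^ 2 ≤ δ * (Q : ℝ) ^ 2 / 8 := by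
      have e5 : 8 / δ * (8 * (c : ℝ) ^ 2 * (8 + 12 * A) + 1) ≤ R := by linarith
      have e6 : 8 / δ * (8 * (c : ℝ) ^ 2 * (8 + 12 * A) + 1) * L ^ 2 ≤ (Q : ℝ) ^ 2 := by
        refine (mul_le_mul_of_nonneg_right e5 (by positivity)).trans ?_
        rw [mul_one] at e3
        calc R * L ^ 2 ≤ (Q : ℝ) * Q := e3
          _ = (Q : ℝ) ^ 2 := by ring
      calc (8 * (c : ℝ) ^ 2 * (8 + 12 * A) + 1) * L ^ 2
          = δ * (8 / δ * (8 * (c : ℝ) ^ 2 * (8 + 12 * A) + 1) * L ^ 2) / 8 := by field_simp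
        _ ≤ δ * (Q : ℝ) ^ 2 / 8 := by
          apply div_le_div_of_nonneg_right _ (by norm_num)
          exact mul_le_mul_of_nonneg_left e6 hδ.le
    nlinarith
  · have hs0 : (0 : ℝ) < Real.sqrt n := Real.sqrt_pos.2 (by linarith)
    have e1 : 10 / δ ≤ Real.sqrt n := Real.le_sqrt_of_sq_le hn10
    rw [div_le_iff₀ hs0]
    rw [div_le_iff₀ hδ] at e1
    linarith

end Pool.Agent.Helper98.NC
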