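import Pool.Agent.Helper98.NF.PushHead
import Pool.Agent.Helper27.NC.Main
import Pool.Agent.Helper66.NB.Num2
import Pool.Agent.Helper81.NC.Ripe
import Pool.Agent.Helper18.NC.Hid

/-!
# The bound for pushdown programs which inspect bits
-/

set_option autoImplicit false

namespace Pool.Agent.Helper98.NC

open Pool.Agent.Helper19.NF Pool.Agent.Helper27.NC
open Pool.Agent.Helper98.NF (sim size_le)
open Pool.Agent.Helper4.NF (large_of)
open Pool.Agent.Helper66.NB (numbers_sqrt)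
open Pool.Agent.Helper27.NB (num num_injective num_lt)

variable {n m : ℕ} [NeZero m] {B Λ F Y : Type} [AddCommGroup B] [Fintype Λ] [Fintype B] [Fintype F] {ρ h a M : ℕ}

/-- **The bound for deterministic pushdown programs which run for at most `2 ^ t` steps.** -/
theorem push_bound (hn : 1 ≤ n) (H : Hid Λ F (Dir m → B) ρ h M) (hah : a + h = Fintype.card Λ)
    (hM : 4 * (n * m) ≤ M) (hM' : 2 * Fintype.card B ≤ M) (x0 : Pos n m → B)
    (h0 : Function.Injective x0) {Q Γ : Type} [Finite Q] [Finite Γ] (P : PProg (B × Λ) F Y Q Γ) (φ : B → Y)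
    (p T : ℕ) (hφ : ∀ y, Nat.card {b // φ b = y} ≤ p) (x : ℝ) (hx : 0 < x) (t : ℕ) :
    (Nat.card {J : B × Λ → F // (∃ j ≤ 2 ^ t, P.act (P.conf J j).1 = .out (φ (out x0 (wd H J)))) ∧
        Nat.card {b // P.Asks J b} ≤ T} : ℝ) ≤
      ((2 * (n * (n + 1) * m) ^ 2 + (1 + 1 / M) * p) / Fintype.card B +
          2 * (n * m * (((T / (a + 1) : ℕ) : ℝ) / Fintype.card B) ^ m) +
        2 * (((10 * Nat.card Q ^ 2 * (Nat.card Γ + 1) * (2 ^ t + 1) ^ 4) ^ (t + 1) : ℕ) *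
          (Real.exp x * (4 * m ^ 2 * ((T : ℝ) / Fintype.card B) / x +
          2 * m ^ 2 * n * (((T / (a + 1) : ℕ) : ℝ) / Fintype.card B) ^ m) ^ (n - 1)))) *
        Nat.card (B × Λ → F) := by
  have : Nonempty Y := ⟨φ 0⟩
  obtain ⟨N, hN, E, hE⟩ := sim (fun y : Y => (y, (0 : Fin 1))) P t
  have h1 := main_bound hn H hah hM hM' x0 h0 E φ p T hφ x hx
  rw [Nat.cast_one, one_mul] at h1
  refine le_trans (Nat.cast_le.2 ?_) (h1.trans ?_)
  · refine Nat.card_le_card_of_injective (fun J => ⟨(0, J.1), ?_⟩) (fun J J' h => ?_)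
    · obtain ⟨J, hJ, hT⟩ := J
      obtain ⟨h2, h3⟩ := hE J _ hJ
      exact ⟨h2, (Nat.card_le_card_of_injective (fun c : {b // E.Asks J (E.start 0) b} =>
        (⟨c.1, h3 c.1 c.2⟩ : {b // P.Asks J b})) (fun c c' h => by simpa [Subtype.ext_iff] using h)).trans hT⟩
    · simpa [Subtype.ext_iff] using h
  · gcongr

/-- **Pushdown programs which query symbols**, with nearly hidden words: the part of the inputs is at most
`p / |B| + 10 / sqrt n`. -/
theorem push_numbers (H : Hid Λ F (Dir m → B) ρ h M) (hah : a + h = Fintype.card Λ) (hM : 4 * Fintype.card B ≤ M)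
    (x0 : Pos n m → B)
    (h0 : Function.Injective x0) {Q Γ : Type} [Finite Q] [Finite Γ] (P : PProg (B × Λ) F Y Q Γ) (φ : B → Y)
    (p T w r : ℕ) (hφ : ∀ y, Nat.card {b // φ b = y} ≤ p) (hr : 1 ≤ r) (hm : (6 * (m * r) ^ 2 : ℝ) ≤ Real.sqrt n)
    (hk : n ^ 5 ≤ Fintype.card B) (hT : (T : ℝ) ≤ r ^ 2 * Fintype.card B)
    (hT' : ((T / (a + 1) : ℕ) : ℝ) ≤ (1 - 2 * Real.log n / m) * Fintype.card B)
    (hQ : Nat.card Q ≤ 2 ^ w) (hΓ : Nat.card Γ ≤ 2 ^ w) (hw : (16 * w ^ 2 : ℝ) ≤ n * Real.log n) :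
    (Nat.card {J : B × Λ → F // (∃ j ≤ 2 ^ w, P.act (P.conf J j).1 = .out (φ (out x0 (wd H J)))) ∧
        Nat.card {b // P.Asks J b} ≤ T} : ℝ) ≤
      (p / Fintype.card B + 10 / Real.sqrt n) * Nat.card (B × Λ → F) := by
  have hk0 : (0 : ℝ) < Fintype.card B := by
    exact_mod_cast Fintype.card_pos_iff.2 (⟨0⟩ : Nonempty B)
  have hk0' : 0 < Fintype.card B := by exact_mod_cast hk0
  have hm1 : 1 ≤ m := Nat.one_le_iff_ne_zero.2 (NeZero.ne m)
  have hK0 : (0 : ℝ) ≤ (T : ℝ) / Fintype.card B := by positivity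
  have hK0' : (0 : ℝ) ≤ ((T / (a + 1) : ℕ) : ℝ) / Fintype.card B := by positivity
  have hK : (T : ℝ) / Fintype.card B ≤ r ^ 2 := (div_le_iff₀ hk0).2 hT
  have hK' : ((T / (a + 1) : ℕ) : ℝ) / Fintype.card B ≤ 1 - 2 * Real.log n / m := (div_le_iff₀ hk0).2 hT'
  have hr1 : (1 : ℝ) ≤ r := by exact_mod_cast hr
  have hm' : (6 * m ^ 2 : ℝ) ≤ Real.sqrt n := by
    refine le_trans ?_ hm
    have h1 : (m : ℝ) ^ 2 ≤ (m * r) ^ 2 := by
      rw [mul_pow]
      exact le_mul_of_one_le_right (by positivity) (one_le_pow₀ hr1)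
    linarith
  obtain ⟨h46, h216, hl⟩ := large_of n m _ hm1 hK0' hK' hm'
  have hn0 : (0 : ℝ) < n := by linarith
  have hn : 1 ≤ n := by
    have : 0 < n := by exact_mod_cast hn0
    omega
  have hn1 : (1 : ℝ) ≤ n := by exact_mod_cast hn
  have hs0 : (0 : ℝ) < Real.sqrt n := by linarith
  have hss : Real.sqrt n * Real.sqrt n = n := Real.mul_self_sqrt hn0.le
  -- the case of a large `p` is trivial
  rcases Nat.lt_or_ge (Fintype.card B) p with hp | hp
  · have h1 : (1 : ℝ) ≤ p / Fintype.card B := by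
      rw [one_le_div hk0]
      exact_mod_cast hp.le
    have h2 : (0 : ℝ) ≤ 10 / Real.sqrt n := by positivity
    have h3 : (Nat.card {J : B × Λ → F // (∃ j ≤ 2 ^ w, P.act (P.conf J j).1 = .out (φ (out x0 (wd H J)))) ∧
        Nat.card {b // P.Asks J b} ≤ T} : ℝ) ≤ Nat.card (B × Λ → F) :=
      Nat.cast_le.2 (Nat.card_le_card_of_injective (fun J => J.1) Subtype.val_injective)
    refine h3.trans ?_
    have h4 : (0 : ℝ) ≤ Nat.card (B × Λ → F) := Nat.cast_nonneg _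
    nlinarith
  have hp' : (p : ℝ) ≤ Fintype.card B := by exact_mod_cast hp
  -- `M` is large
  have hmn : m ≤ n := by
    have h1 : (m : ℝ) ≤ (m : ℝ) ^ 2 := by
      have : (1 : ℝ) ≤ m := by exact_mod_cast hm1
      nlinarith
    have h2 : Real.sqrt n ≤ n := by
      rw [Real.sqrt_le_left (by linarith)]
      nlinarith
    have h3 : (m : ℝ) ≤ n := by nlinarith
    exact_mod_cast h3
  have hnm : n * m ≤ Fintype.card B := by
    calc n * m ≤ n * n := Nat.mul_le_mul_left _ hmn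
      _ = n ^ 2 := by ring
      _ ≤ n ^ 5 := Nat.pow_le_pow_right hn (by norm_num)
      _ ≤ Fintype.card B := hk
  have hM1 : (0 : ℝ) < M := by
    have : 0 < M := by omega
    exact_mod_cast this
  have hMB : 4 * (Fintype.card B : ℝ) ≤ M := by exact_mod_cast hM
  refine (push_bound hn H hah (by omega) (by omega) x0 h0 P φ p T hφ n hn0 w).trans
    (mul_le_mul_of_nonneg_right ?_ (Nat.cast_nonneg _))
  have h2 := numbers_sqrt n m r
    (((10 * Nat.card Q ^ 2 * (Nat.card Γ + 1) * (2 ^ w + 1) ^ 4) ^ (w + 1) : ℕ) : ℝ) _ _ (Nat.cast_nonneg _) hm1 hr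
    hK0 hK hK0' hK' hm (size_le h46 hl hw hQ hΓ)
  -- the collisions
  have hkR : (n : ℝ) ^ 5 ≤ Fintype.card B := by exact_mod_cast hk
  have h3 : 2 * ((n : ℝ) * (n + 1) * m) ^ 2 / Fintype.card B ≤ 4 / Real.sqrt n := by
    rw [div_le_div_iff₀ hk0 hs0]
    have e1 : ((n : ℝ) * (n + 1) * m) ^ 2 ≤ 4 * (n : ℝ) ^ 4 * (m : ℝ) ^ 2 := by
      have e2 : (n : ℝ) * (n + 1) * m ≤ n * (2 * n) * m := by
        have e3 : (n : ℝ) + 1 ≤ 2 * n := by linarith
        exact mul_le_mul_of_nonneg_right (mul_le_mul_of_nonneg_left e3 hn0.le) (Nat.cast_nonneg _)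
      calc ((n : ℝ) * (n + 1) * m) ^ 2 ≤ ((n : ℝ) * (2 * n) * m) ^ 2 := pow_le_pow_left₀ (by positivity) e2 2
        _ = 4 * (n : ℝ) ^ 4 * (m : ℝ) ^ 2 := by ring
    have e4 : (m : ℝ) ^ 2 * Real.sqrt n ≤ n / 6 := by
      have e5 : (m : ℝ) ^ 2 ≤ Real.sqrt n / 6 := by linarith
      calc (m : ℝ) ^ 2 * Real.sqrt n ≤ Real.sqrt n / 6 * Real.sqrt n := mul_le_mul_of_nonneg_right e5 hs0.le
        _ = n / 6 := by rw [div_mul_eq_mul_div, hss]
    calc 2 * ((n : ℝ) * (n + 1) * m) ^ 2 * Real.sqrt n ≤ 2 * (4 * (n : ℝ) ^ 4 * (m : ℝ) ^ 2) * Real.sqrt n := by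
          gcongr
      _ = 8 * (n : ℝ) ^ 4 * ((m : ℝ) ^ 2 * Real.sqrt n) := by ring
      _ ≤ 8 * (n : ℝ) ^ 4 * (n / 6) := mul_le_mul_of_nonneg_left e4 (by positivity)
      _ = 4 / 3 * (n : ℝ) ^ 5 := by ring
      _ ≤ 4 * Fintype.card B := by linarith
  -- the excess
  have h4 : 1 / (M : ℝ) * p / Fintype.card B ≤ 1 / Real.sqrt n := by
    have e1 : 1 / (M : ℝ) * p / Fintype.card B ≤ 1 / M := by
      rw [div_le_iff₀ hk0]
      exact mul_le_mul_of_nonneg_left hp' (by positivity)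
    refine e1.trans (one_div_le_one_div_of_le hs0 ?_)
    have e2 : Real.sqrt n ≤ n := by
      rw [Real.sqrt_le_left (by linarith)]
      nlinarith
    have e3 : (n : ℝ) ≤ (n : ℝ) ^ 5 := by
      exact_mod_cast Nat.le_self_pow (by norm_num) n
    linarith
  have h5 : (2 * ((n : ℝ) * (n + 1) * m) ^ 2 + (1 + 1 / (M : ℝ)) * p) / Fintype.card B =
      2 * ((n : ℝ) * (n + 1) * m) ^ 2 / Fintype.card B + p / Fintype.card B + 1 / (M : ℝ) * p / Fintype.card B := by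
    rw [add_mul, one_mul, add_div, add_div, add_assoc]
  have h6 : (10 : ℝ) / Real.sqrt n = 4 / Real.sqrt n + 2 * (2 / Real.sqrt n) + 1 / Real.sqrt n + 1 / Real.sqrt n := by
    field_simp
    norm_num
  rw [h5, h6]
  have h7 : (0 : ℝ) ≤ 1 / Real.sqrt n := by positivity
  linarith

/-- The number of the symbols of a block which may be known. -/
theorem places {Q q r : ℕ} (hq : 2 ≤ q) (hr : 1 ≤ r) (hrQ : r ≤ Q) :
    1 ≤ (Q - (r - 1)) * (Q - Q / q) ∧ (r - 1) * Q + (Q - (r - 1)) * (Q / q) + (Q - (r - 1)) * (Q - Q / q) = Q ^ 2 := by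
  have hQ : 1 ≤ Q := hr.trans hrQ
  have h1 : Q / q < Q := Nat.div_lt_self hQ hq
  refine ⟨Nat.mul_pos (by omega) (by omega), ?_⟩
  obtain ⟨u, hu⟩ : ∃ u, Q = (r - 1) + u := ⟨Q - (r - 1), by omega⟩
  obtain ⟨v, hv⟩ : ∃ v, Q = Q / q + v := ⟨Q - Q / q, by omega⟩
  have e1 : Q - (r - 1) = u := by omega
  have e2 : Q - Q / q = v := by omega
  rw [e1, e2, add_assoc, ← mul_add, ← hv, ← add_mul, ← hu, pow_two]

/-- There is room for `d` more places. -/
theorem room {Q c r d : ℕ} {δ : ℝ} (hδ1 : δ ≤ 1) (hQ1 : 1 ≤ Q) (hc : 2 ≤ c) (hδc : 8 ≤ δ * c) (hr1 : 1 ≤ r)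
    (hrQ : r ≤ Q) (hr : (8 * r : ℝ) ≤ δ * Q) (hd : (8 * d : ℝ) ≤ δ * (Q : ℝ) ^ 2) :
    d < (Q - (r - 1)) * (Q - Q / c) := by
  have hQ0 : (0 : ℝ) < Q := by exact_mod_cast hQ1
  have hc0 : (0 : ℝ) < c := by exact_mod_cast (by omega : 0 < c)
  have h1 : ((Q - (r - 1) : ℕ) : ℝ) = Q - (r - 1) := by
    rw [Nat.cast_sub (by omega), Nat.cast_sub hr1]
    simp
  have h2 : (7 / 8 : ℝ) * Q ≤ ((Q - (r - 1) : ℕ) : ℝ) := by
    rw [h1]
    nlinarith
  have h3 : (7 / 8 : ℝ) * Q ≤ ((Q - Q / c : ℕ) : ℝ) := by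
    rw [Nat.cast_sub (Nat.div_le_self _ _)]
    have e1 : ((Q / c : ℕ) : ℝ) ≤ (Q : ℝ) / c := Nat.cast_div_le
    have e2 : (Q : ℝ) / c ≤ Q / 8 := by
      apply div_le_div_of_nonneg_left hQ0.le (by norm_num)
      nlinarith
    linarith
  have h4 : (7 / 8 : ℝ) * Q * (7 / 8 * Q) ≤ (((Q - (r - 1)) * (Q - Q / c) : ℕ) : ℝ) := by
    rw [Nat.cast_mul]
    exact mul_le_mul h2 h3 (by positivity) (Nat.cast_nonneg _)
  have h5 : (d : ℝ) < (((Q - (r - 1)) * (Q - Q / c) : ℕ) : ℝ) := by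
    refine lt_of_lt_of_le ?_ h4
    have e1 : (0 : ℝ) < (Q : ℝ) ^ 2 := by positivity
    nlinarith
  exact_mod_cast h5

/-- B18c': pushdown programs, with the words written out. -/
theorem push_head {K : Type} [Field K] [Fintype K] {n m e : ℕ} [NeZero m] {Y Q Γ : Type} [Finite Q] [Finite Γ]
    (c : ℕ) [Fact c.Prime] [CharP K c]
    (d : ℕ) (he : 1 ≤ e) (δ : ℝ) (hδ : 0 < δ) (hδc : 8 ≤ δ * c) (hlog : 2 * Real.log n / m ≤ δ / 2)
    (hr : (8 * (2 * m * e : ℕ) : ℝ) ≤ δ * Fintype.card K) (hd : (8 * d : ℝ) ≤ δ * (Fintype.card K : ℝ) ^ 2)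
    (hm2 : (6 * (m * Fintype.card K) ^ 2 : ℝ) ≤ Real.sqrt n) (hk : n ^ 5 ≤ Fintype.card K ^ e)
    (hr' : 2 * m * e ≤ Fintype.card K)
    (hη : ((4 * Fintype.card K ^ e : ℕ) : ℝ) *
      ((Fintype.card K : ℝ) ^ (2 * m * e) * (1 - 1 / (8 * (c : ℝ) ^ 2)) ^ d) ≤ 1)
    (hδn : 10 / Real.sqrt n ≤ δ)
    (x0 : ZMod (n + 1) × ZMod m → Fin e → K) (h0 : Function.Injective x0) (φ : (Fin e → K) → Y) (p T w : ℕ)
    (hφ : ∀ y, Nat.card {b // φ b = y} ≤ p)
    (hT : (T : ℝ) ≤ (1 - δ) * ((Fintype.card K : ℝ) ^ e * (Fintype.card K : ℝ) ^ 2))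
    (hw : (16 * w ^ 2 : ℝ) ≤ n * Real.log n) (hcQ : Nat.card Q ≤ 2 ^ w) (hcΓ : Nat.card Γ ≤ 2 ^ w)
    (P : PProg ((Fin e → K) × (K × K)) Bool Y Q Γ) :
    (Nat.card {J : (Fin e → K) × (K × K) → Bool //
        (∃ j ≤ 2 ^ w, P.act (P.conf J j).1 = .out (φ (out x0 (table J)))) ∧ Nat.card {b // P.Asks J b} ≤ T} : ℝ) ≤
      (p / (Fintype.card K : ℝ) ^ e + δ) * Nat.card ((Fin e → K) × (K × K) → Bool) := by
  classical
  have hc2 : 2 ≤ c := (Fact.out : c.Prime).two_le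
  have hcQ' : c ∣ Fintype.card K := by
    obtain ⟨s, -, hs⟩ := FiniteField.card K c
    rw [hs]
    exact dvd_pow_self _ s.pos.ne'
  have hm : 1 ≤ m := Nat.one_le_iff_ne_zero.2 (NeZero.ne m)
  have hK1 : 1 ≤ Fintype.card K := Fintype.card_pos
  have hK0 : (0 : ℝ) < Fintype.card K := by exact_mod_cast hK1
  have hδ1 : δ ≤ 1 := by
    by_contra hcon
    push Not at hcon
    have e1 : (1 - δ) * ((Fintype.card K : ℝ) ^ e * (Fintype.card K : ℝ) ^ 2) < 0 :=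
      mul_neg_of_neg_of_pos (by linarith) (by positivity)
    have e2 : (0 : ℝ) ≤ T := Nat.cast_nonneg _
    linarith
  have hre : 2 * m * e = e * (2 * m) := by ring
  rw [hre] at hr hr' hη
  have hr1 : 1 ≤ e * (2 * m) := Nat.mul_pos he (by omega)
  obtain ⟨hp1, hp2⟩ := places (Q := Fintype.card K) hc2 hr1 hr'
  have hroom := room hδ1 hK1 hc2 hδc hr1 hr' (by exact_mod_cast hr) hd
  have hcD : Fintype.card (Dir m) = 2 * m := by
    rw [Fintype.card_prod, Fintype.card_bool, ZMod.card]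
  have hrip := Pool.Agent.Helper81.NC.ripe_part c (Fintype.card K) (e * (2 * m)) (Fintype.card K ^ e) T d δ hc2 hcQ'
    hK1 hr1 (Nat.one_le_pow _ _ hK1) hδ hδc (by exact_mod_cast hr) hd (by rw [Nat.cast_pow]; exact hT)
  have hex := Pool.Agent.Helper18.NC.exists_hid (K := K) (D := Dir m) c e he num num_injective num_lt (by rw [hcD]; exact hr') d
    (Fintype.card K ^ 2 - ((Fintype.card K - (e * (2 * m) - 1)) *
      (Fintype.card K - Fintype.card K / c) - d - 1)) (4 * Fintype.card K ^ e) (Nat.sub_le _ _)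
  rw [hcD] at hex
  generalize hAdef : (Fintype.card K - (e * (2 * m) - 1)) * (Fintype.card K - Fintype.card K / c) = A at *
  obtain ⟨ρ, H, hH⟩ := hex (by omega) hη
  have hcB : Fintype.card (Fin e → K) = Fintype.card K ^ e := by
    rw [Fintype.card_fun, Fintype.card_fin]
  have hah : (A - d - 1) + (Fintype.card K ^ 2 - (A - d - 1)) = Fintype.card (K × K) := by
    rw [Fintype.card_prod, ← pow_two]
    omega
  have hk0 : (0 : ℝ) < (Fintype.card K ^ e : ℕ) := by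
    exact_mod_cast Nat.one_le_pow _ _ hK1
  have h1 := push_numbers H hah (by rw [hcB]) x0 h0 P φ p T w (Fintype.card K) hφ hK1 hm2
    (by rw [hcB]; exact hk)
    (by
      rw [hcB]
      refine hT.trans ?_
      push_cast
      calc (1 - δ) * ((Fintype.card K : ℝ) ^ e * (Fintype.card K : ℝ) ^ 2)
          ≤ 1 * ((Fintype.card K : ℝ) ^ e * (Fintype.card K : ℝ) ^ 2) :=
            mul_le_mul_of_nonneg_right (by linarith) (by positivity)
        _ = (Fintype.card K : ℝ) ^ 2 * (Fintype.card K : ℝ) ^ e := by ring)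
    (by
      rw [hcB, Nat.sub_add_cancel (by omega : 1 ≤ A - d), ← div_le_iff₀ hk0]
      exact hrip.trans (by linarith))
    hcQ hcΓ hw
  have h2 : ∀ J : (Fin e → K) × (K × K) → Bool, wd H J = table J := by
    intro J
    funext b
    rw [wd, hH]
    rfl
  simp only [h2] at h1
  rw [hcB] at h1
  push_cast at h1
  refine h1.trans (mul_le_mul_of_nonneg_right ?_ (Nat.cast_nonneg _))
  linarith

end Pool.Agent.Helper98.NC
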